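import Mathlib
import Pool.Agent.WidomLib.Basic

set_option autoImplicit false
open MeasureTheory Filter
open scoped Topology ENNReal NNReal

/-!
Generalised real Julia sets.  For a sequence of quadratic polynomials `f_j (x) = x ^ 2 - c j` the set
`J j` of the starting points `x` for which `x, f_j x, f_(j+1) (f_j x), ...` stays in `[-b j, b j]`,
`[-b (j+1), b (j+1)]`, ... is the set of the values of
`X j e = sg (e 0) * sqrt (c j + X (j + 1) (shift e))`, `e` a sequence of signs.
-/

namespace Pool.Agent.Lib_helper39.Widom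

/-- The parameters. -/
structure Sys where
  c : ℕ → ℝ
  b : ℕ → ℝ
  L : ℕ → ℝ
  two_le_b : ∀ j, 2 ≤ b j
  four_le_L : ∀ j, 4 ≤ L j
  cb : ∀ j, c j + b (j + 1) ≤ b j ^ 2
  Lc : ∀ j, b (j + 1) + L j ≤ c j
  bL : ∀ j, b j ^ 2 ≤ 2 * L j
  small : Tendsto (fun k => Real.log (b k) / 2 ^ k) atTop (𝓝 0)

/-- The sign of a digit. -/
def sg (s : Bool) : ℝ := if s then 1 else -1

lemma abs_sg (s : Bool) : |sg s| = 1 := by cases s <;> simp [sg]

lemma sg_sq (s : Bool) : sg s ^ 2 = 1 := by cases s <;> simp [sg]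

/-- The shift of a sequence. -/
def shift (e : ℕ → Bool) : ℕ → Bool := fun n => e (n + 1)

lemma continuous_shift : Continuous shift := by
  unfold shift
  exact continuous_pi fun n => continuous_apply (n + 1)

variable (S : Sys)

namespace Sys

lemma b_pos (j : ℕ) : 0 < S.b j := by linarith [S.two_le_b j]

lemma L_pos (j : ℕ) : 0 < S.L j := by linarith [S.four_le_L j]

/-- The inverse branches. -/
noncomputable def br (j : ℕ) (s : Bool) (y : ℝ) : ℝ := sg s * Real.sqrt (S.c j + y)

variable {S}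

lemma L_le {j : ℕ} {y : ℝ} (hy : |y| ≤ S.b (j + 1)) : S.L j ≤ S.c j + y := by
  have := S.Lc j
  have := (abs_le.mp hy).1
  linarith

lemma add_le {j : ℕ} {y : ℝ} (hy : |y| ≤ S.b (j + 1)) : S.c j + y ≤ S.b j ^ 2 := by
  have := S.cb j
  have := (abs_le.mp hy).2
  linarith

lemma sqrt_le {j : ℕ} {y : ℝ} (hy : |y| ≤ S.b (j + 1)) : Real.sqrt (S.c j + y) ≤ S.b j := by
  rw [Real.sqrt_le_left (S.b_pos j).le]
  exact add_le hy

lemma le_sqrt {j : ℕ} {y : ℝ} (hy : |y| ≤ S.b (j + 1)) :
    Real.sqrt (S.L j) ≤ Real.sqrt (S.c j + y) := Real.sqrt_le_sqrt (L_le hy)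

lemma br_sq {j : ℕ} {s : Bool} {y : ℝ} (hy : |y| ≤ S.b (j + 1)) :
    S.br j s y ^ 2 = S.c j + y := by
  unfold br
  rw [mul_pow, sg_sq, one_mul, Real.sq_sqrt]
  have := L_le hy
  have := S.L_pos j
  linarith

lemma abs_br (j : ℕ) (s : Bool) (y : ℝ) : |S.br j s y| = Real.sqrt (S.c j + y) := by
  unfold br
  rw [abs_mul, abs_sg, one_mul, abs_of_nonneg (Real.sqrt_nonneg _)]

lemma abs_br_le {j : ℕ} {s : Bool} {y : ℝ} (hy : |y| ≤ S.b (j + 1)) : |S.br j s y| ≤ S.b j := by
  rw [abs_br]
  exact sqrt_le hy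

/-- `2 sqrt (L j) ≥ sqrt 2 * b j`. -/
lemma sqrt_two_mul_b_le (j : ℕ) : Real.sqrt 2 * S.b j ≤ 2 * Real.sqrt (S.L j) := by
  have h1 : Real.sqrt 2 * S.b j = Real.sqrt (2 * S.b j ^ 2) := by
    rw [Real.sqrt_mul (by norm_num), Real.sqrt_sq (S.b_pos j).le]
  have h2 : 2 * Real.sqrt (S.L j) = Real.sqrt (4 * S.L j) := by
    rw [Real.sqrt_mul (by norm_num), show (4:ℝ) = 2 ^ 2 by norm_num, Real.sqrt_sq (by norm_num)]
  rw [h1, h2]
  apply Real.sqrt_le_sqrt
  have := S.bL j
  linarith

lemma abs_br_sub {j : ℕ} {s : Bool} {y y' : ℝ} (hy : |y| ≤ S.b (j + 1)) (hy' : |y'| ≤ S.b (j + 1)) :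
    |S.br j s y - S.br j s y'| ≤ |y - y'| / (2 * Real.sqrt (S.L j)) := by
  have hL : 0 < Real.sqrt (S.L j) := Real.sqrt_pos.mpr (S.L_pos j)
  have h1 := le_sqrt hy
  have h2 := le_sqrt hy'
  have h3 : |S.br j s y - S.br j s y'| = |Real.sqrt (S.c j + y) - Real.sqrt (S.c j + y')| := by
    unfold br
    rw [← mul_sub, abs_mul, abs_sg, one_mul]
  rw [h3, le_div_iff₀ (by positivity)]
  have e1 : Real.sqrt (S.c j + y) ^ 2 = S.c j + y :=
    Real.sq_sqrt (by linarith [L_le hy, S.L_pos j])
  have e2 : Real.sqrt (S.c j + y') ^ 2 = S.c j + y' :=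
    Real.sq_sqrt (by linarith [L_le hy', S.L_pos j])
  have e3 : y - y' = (Real.sqrt (S.c j + y) - Real.sqrt (S.c j + y')) *
      (Real.sqrt (S.c j + y) + Real.sqrt (S.c j + y')) := by linear_combination e2 - e1
  rw [e3, abs_mul]
  apply mul_le_mul_of_nonneg_left _ (abs_nonneg _)
  rw [abs_of_nonneg (by positivity)]
  linarith

variable (S)

/-- The composition of `m` inverse branches from level `j + m` to level `j`. -/
noncomputable def app : ℕ → ℕ → (ℕ → Bool) → ℝ → ℝ
  | 0, _, _, y => y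
  | m + 1, j, e, y => S.br j (e 0) (app m (j + 1) (shift e) y)

variable {S}

lemma app_zero (j : ℕ) (e : ℕ → Bool) (y : ℝ) : S.app 0 j e y = y := rfl

lemma app_succ (m j : ℕ) (e : ℕ → Bool) (y : ℝ) :
    S.app (m + 1) j e y = S.br j (e 0) (S.app m (j + 1) (shift e) y) := rfl

lemma abs_app_le (m : ℕ) : ∀ (j : ℕ) (e : ℕ → Bool) (y : ℝ), |y| ≤ S.b (j + m) →
    |S.app m j e y| ≤ S.b j := by
  induction m with
  | zero => intro j e y hy; rw [app_zero]; simpa using hy
  | succ m ih =>
    intro j e y hy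
    rw [app_succ]
    apply abs_br_le
    apply ih
    rwa [add_assoc, add_comm 1 m]

lemma app_append (m : ℕ) : ∀ (j : ℕ) (e : ℕ → Bool) (y : ℝ),
    S.app (m + 1) j e y = S.app m j e (S.br (j + m) (e m) y) := by
  induction m with
  | zero => intro j e y; rfl
  | succ m ih =>
    intro j e y
    rw [app_succ, ih, app_succ]
    have h1 : j + 1 + m = j + (m + 1) := by omega
    rw [h1]
    rfl

/-- Diameter of cylinders. -/
lemma abs_app_sub (m : ℕ) : ∀ (j : ℕ) (e : ℕ → Bool) (y y' : ℝ), |y| ≤ S.b (j + m) →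
    |y'| ≤ S.b (j + m) → |S.app m j e y - S.app m j e y'| ≤ 2 * S.b j / Real.sqrt 2 ^ m := by
  induction m with
  | zero =>
    intro j e y y' hy hy'
    rw [app_zero, app_zero, pow_zero, div_one]
    have := abs_le.mp hy
    have := abs_le.mp hy'
    rw [add_zero] at *
    rw [abs_le]
    constructor <;> linarith
  | succ m ih =>
    intro j e y y' hy hy'
    have hjm : j + (m + 1) = j + 1 + m := by omega
    rw [hjm] at hy hy'
    rw [app_succ, app_succ]
    refine (abs_br_sub (abs_app_le m _ _ _ hy) (abs_app_le m _ _ _ hy')).trans ?_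
    have h1 := ih (j + 1) (shift e) y y' hy hy'
    have h2 := sqrt_two_mul_b_le (S := S) j
    have hb := S.b_pos j
    have hb1 : S.b (j + 1) ≤ S.b j ^ 2 := by
      have := S.cb j
      have := S.Lc j
      have := S.L_pos j
      have := S.b_pos (j + 1)
      linarith
    have hs : 0 < Real.sqrt 2 := Real.sqrt_pos.mpr (by norm_num)
    calc |S.app m (j + 1) (shift e) y - S.app m (j + 1) (shift e) y'| / (2 * Real.sqrt (S.L j))
        ≤ (2 * S.b (j + 1) / Real.sqrt 2 ^ m) / (Real.sqrt 2 * S.b j) := by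
          apply div_le_div₀ _ h1 (by positivity) h2
          have := S.b_pos (j + 1)
          positivity
      _ ≤ (2 * S.b j ^ 2 / Real.sqrt 2 ^ m) / (Real.sqrt 2 * S.b j) := by gcongr
      _ = 2 * S.b j / Real.sqrt 2 ^ (m + 1) := by
          rw [pow_succ, div_div, div_eq_div_iff (by positivity) (by positivity)]
          ring

/-- Two sequences with the same first `m` digits have the same branch. -/
lemma app_congr (m : ℕ) : ∀ (j : ℕ) (e e' : ℕ → Bool) (y : ℝ), (∀ i < m, e i = e' i) →
    S.app m j e y = S.app m j e' y := by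
  induction m with
  | zero => intro j e e' y _; rfl
  | succ m ih =>
    intro j e e' y h
    rw [app_succ, app_succ, h 0 (by omega), ih (j + 1) (shift e) (shift e') y]
    intro i hi
    exact h (i + 1) (by omega)

lemma cauchy_app (j : ℕ) (e : ℕ → Bool) : CauchySeq fun m => S.app m j e 0 := by
  have hr : (Real.sqrt 2)⁻¹ < 1 := by
    rw [inv_lt_one₀ (by positivity)]
    exact Real.lt_sqrt_of_sq_lt (by norm_num)
  apply cauchySeq_of_le_geometric (Real.sqrt 2)⁻¹ (2 * S.b j) hr
  intro m
  rw [dist_eq_norm, Real.norm_eq_abs, app_append, abs_sub_comm]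
  have h0 : |(0:ℝ)| ≤ S.b (j + m + 1) := by rw [abs_zero]; exact (S.b_pos _).le
  have h0' : |(0:ℝ)| ≤ S.b (j + m) := by rw [abs_zero]; exact (S.b_pos _).le
  have := abs_app_sub m j e (S.br (j + m) (e m) 0) 0 (abs_br_le h0) h0'
  rw [inv_pow, ← div_eq_mul_inv]
  exact this

variable (S)

/-- The point of the Julia set with the given signs. -/
noncomputable def X (j : ℕ) (e : ℕ → Bool) : ℝ := limUnder atTop fun m => S.app m j e 0

variable {S}

lemma tendsto_X (j : ℕ) (e : ℕ → Bool) : Tendsto (fun m => S.app m j e 0) atTop (𝓝 (S.X j e)) :=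
  (cauchy_app j e).tendsto_limUnder

lemma abs_X_le (j : ℕ) (e : ℕ → Bool) : |S.X j e| ≤ S.b j := by
  apply le_of_tendsto' (tendsto_X j e).abs
  intro m
  apply abs_app_le
  rw [abs_zero]
  exact (S.b_pos _).le

lemma X_eq (j : ℕ) (e : ℕ → Bool) : S.X j e = S.br j (e 0) (S.X (j + 1) (shift e)) := by
  have h1 : Tendsto (fun m => S.app (m + 1) j e 0) atTop (𝓝 (S.X j e)) :=
    (tendsto_X j e).comp (tendsto_add_atTop_nat 1)
  have h2 : Tendsto (fun m => S.app (m + 1) j e 0) atTop
      (𝓝 (S.br j (e 0) (S.X (j + 1) (shift e)))) := by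
    simp only [app_succ]
    unfold br
    apply Tendsto.const_mul
    apply Tendsto.sqrt
    exact (tendsto_X (j + 1) (shift e)).const_add _
  exact tendsto_nhds_unique h1 h2

/-- `m`-fold shift. -/
def shiftN (m : ℕ) (e : ℕ → Bool) : ℕ → Bool := fun n => e (n + m)

lemma X_eq_app (m : ℕ) : ∀ (j : ℕ) (e : ℕ → Bool),
    S.X j e = S.app m j e (S.X (j + m) (shiftN m e)) := by
  induction m with
  | zero => intro j e; rfl
  | succ m ih =>
    intro j e
    rw [app_succ, X_eq, ih (j + 1) (shift e)]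
    have h1 : j + 1 + m = j + (m + 1) := by omega
    rw [h1]
    rfl

/-- Sequences with the same first `m` digits give points at distance at most
`2 b j / sqrt 2 ^ m`. -/
lemma abs_X_sub (m j : ℕ) (e e' : ℕ → Bool) (h : ∀ i < m, e i = e' i) :
    |S.X j e - S.X j e'| ≤ 2 * S.b j / Real.sqrt 2 ^ m := by
  rw [X_eq_app m j e, X_eq_app m j e', app_congr m j e e' _ h]
  exact abs_app_sub m j e' _ _ (abs_X_le _ _) (abs_X_le _ _)

lemma tendsto_diam (j : ℕ) : Tendsto (fun m : ℕ => 2 * S.b j / Real.sqrt 2 ^ m) atTop (𝓝 0) := by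
  apply Tendsto.div_atTop tendsto_const_nhds
  apply tendsto_pow_atTop_atTop_of_one_lt
  exact Real.lt_sqrt_of_sq_lt (by norm_num)

lemma continuous_X (j : ℕ) : Continuous (S.X j) := by
  rw [continuous_iff_continuousAt]
  intro e
  rw [Metric.continuousAt_iff']
  intro ε hε
  obtain ⟨m, hm⟩ := ((tendsto_diam (S := S) j).eventually_lt_const hε).exists
  have hU : {e' : ℕ → Bool | ∀ i < m, e' i = e i} ∈ 𝓝 e := by
    have : {e' : ℕ → Bool | ∀ i < m, e' i = e i} =
        Set.pi (Finset.range m : Set ℕ) (fun i => {e i}) := by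
      ext e'
      simp [Set.mem_pi]
    rw [this]
    apply set_pi_mem_nhds (Finset.finite_toSet _)
    intro i _
    exact (isOpen_discrete {e i}).mem_nhds rfl
  filter_upwards [hU] with e' he'
  rw [dist_eq_norm, Real.norm_eq_abs]
  exact (abs_X_sub m j e' e he').trans_lt hm

lemma sqrt_L_le_abs_X (j : ℕ) (e : ℕ → Bool) : Real.sqrt (S.L j) ≤ |S.X j e| := by
  rw [X_eq, abs_br]
  exact le_sqrt (abs_X_le _ _)

lemma X_sq (j : ℕ) (e : ℕ → Bool) : S.X j e ^ 2 = S.c j + S.X (j + 1) (shift e) := by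
  rw [X_eq, br_sq (abs_X_le _ _)]

lemma X_injective (j : ℕ) : Function.Injective (S.X j) := by
  have key : ∀ (n : ℕ) (j : ℕ) (e e' : ℕ → Bool), S.X j e = S.X j e' → e n = e' n := by
    intro n
    induction n with
    | zero =>
      intro j e e' h
      rw [X_eq, X_eq (e := e')] at h
      have h1 := le_sqrt (S := S) (abs_X_le (S := S) (j + 1) (shift e))
      have h2 := le_sqrt (S := S) (abs_X_le (S := S) (j + 1) (shift e'))
      have h3 : 0 < Real.sqrt (S.L j) := Real.sqrt_pos.mpr (S.L_pos j)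
      unfold br at h
      cases he : e 0 <;> cases he' : e' 0
      · rfl
      · rw [he, he'] at h
        simp only [sg, Bool.false_eq_true, if_false, if_true] at h
        exfalso
        linarith
      · rw [he, he'] at h
        simp only [sg, Bool.false_eq_true, if_false, if_true] at h
        exfalso
        linarith
      · rfl
    | succ n ih =>
      intro j e e' h
      have h1 : S.X (j + 1) (shift e) = S.X (j + 1) (shift e') := by
        have e1 := X_sq (S := S) j e
        have e2 := X_sq (S := S) j e'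
        rw [h] at e1
        linarith
      exact ih (j + 1) (shift e) (shift e') h1
  intro e e' h
  funext n
  exact key n j e e' h

variable (S)

/-- The Julia set of level `j`, on the real line. -/
def J (j : ℕ) : Set ℝ := Set.range (S.X j)

lemma isCompact_J (j : ℕ) : IsCompact (S.J j) := isCompact_range (continuous_X j)

/-- The Julia set, in the complex plane. -/
def K : Set ℂ := (fun x : ℝ => (x : ℂ)) '' S.J 0

lemma isCompact_K : IsCompact S.K := (S.isCompact_J 0).image Complex.continuous_ofReal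

/-- The mean over the two inverse branches. -/
noncomputable def T (j : ℕ) (g : ℝ → ℝ) (y : ℝ) : ℝ := (g (S.br j true y) + g (S.br j false y)) / 2

/-- The corresponding transform of measures. -/
noncomputable def Pull (j : ℕ) (τ : Measure ℝ) : Measure ℝ :=
  (2 : ℝ≥0∞)⁻¹ • (τ.map (S.br j true) + τ.map (S.br j false))

lemma continuous_br (j : ℕ) (s : Bool) : Continuous (S.br j s) := by
  unfold br
  fun_prop

instance (j : ℕ) (τ : Measure ℝ) [IsProbabilityMeasure τ] : IsProbabilityMeasure (S.Pull j τ) := by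
  constructor
  have h1 : IsProbabilityMeasure (τ.map (S.br j true)) :=
    Measure.isProbabilityMeasure_map (S.continuous_br j true).aemeasurable
  have h2 : IsProbabilityMeasure (τ.map (S.br j false)) :=
    Measure.isProbabilityMeasure_map (S.continuous_br j false).aemeasurable
  rw [Pull, Measure.smul_apply, Measure.add_apply, measure_univ, measure_univ, smul_eq_mul,
    one_add_one_eq_two]
  exact ENNReal.inv_mul_cancel (by norm_num) (by norm_num)

/-- The law of `X j` under fair coins. -/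
noncomputable def omR (j : ℕ) : Measure ℝ := WidomLib.beta.map (S.X j)

instance (j : ℕ) : IsProbabilityMeasure (S.omR j) :=
  Measure.isProbabilityMeasure_map (continuous_X j).aemeasurable

end Sys

end Pool.Agent.Lib_helper39.Widom
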