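import Pool.Agent.Lib_helper39.Widom.Defs

set_option autoImplicit false
open MeasureTheory Filter Polynomial
open scoped Topology ENNReal NNReal

/-!
The lower bound for the mean of `‖P‖ ^ 2` over the inverse branches.
-/

namespace Pool.Agent.Lib_helper39.Widom

/-- Even and odd part of a polynomial. -/
lemma even_odd (P : ℂ[X]) : expand ℂ 2 (contract 2 P) + X * expand ℂ 2 (contract 2 P.divX) = P := by
  ext n
  rw [coeff_add]
  rcases Nat.even_or_odd' n with ⟨m, rfl | rfl⟩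
  · rw [coeff_expand (by norm_num), if_pos ⟨m, rfl⟩, coeff_contract (by norm_num)]
    have h1 : (2 * m) / 2 * 2 = 2 * m := by omega
    rw [h1]
    rcases m with _ | m
    · rw [show 2 * 0 = 0 from rfl, mul_coeff_zero, coeff_X_zero, zero_mul, add_zero]
    · rw [show 2 * (m + 1) = (2 * m + 1) + 1 by ring, coeff_X_mul, coeff_expand (by norm_num),
        if_neg (by omega), add_zero]
  · rw [coeff_X_mul, coeff_expand (by norm_num), coeff_expand (by norm_num), if_neg (by omega),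
      if_pos ⟨m, rfl⟩, coeff_contract (by norm_num), zero_add, coeff_divX]
    have h1 : (2 * m) / 2 * 2 + 1 = 2 * m + 1 := by omega
    rw [h1]

lemma eval_even_odd (P : ℂ[X]) (z : ℂ) :
    P.eval z = (contract 2 P).eval (z ^ 2) + z * (contract 2 P.divX).eval (z ^ 2) := by
  conv_lhs => rw [← even_odd P]
  rw [eval_add, eval_mul, eval_X, expand_eval, expand_eval]

/-- The mean of `‖P‖ ^ 2` over the two square roots of a number `≥ 1` is at least `‖Q‖ ^ 2` for a
monic polynomial `Q` of half the degree. -/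
lemma exists_half {P : ℂ[X]} (hP : P.Monic) : ∃ Q : ℂ[X], Q.Monic ∧
    Q.natDegree = P.natDegree / 2 ∧ ∀ r : ℝ, 1 ≤ r ^ 2 →
      ‖Q.eval ((r ^ 2 : ℝ) : ℂ)‖ ^ 2 ≤ (‖P.eval (r : ℂ)‖ ^ 2 + ‖P.eval (-(r : ℂ))‖ ^ 2) / 2 := by
  have key : ∀ r : ℝ, (‖P.eval (r : ℂ)‖ ^ 2 + ‖P.eval (-(r : ℂ))‖ ^ 2) / 2 =
      ‖(contract 2 P).eval ((r ^ 2 : ℝ) : ℂ)‖ ^ 2 +
        r ^ 2 * ‖(contract 2 P.divX).eval ((r ^ 2 : ℝ) : ℂ)‖ ^ 2 := by
    intro r
    rw [eval_even_odd P r, eval_even_odd P (-(r:ℂ)), neg_sq, neg_mul, ← sub_eq_add_neg]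
    have h := parallelogram_law_with_norm ℝ (eval ((r : ℂ) ^ 2) (contract 2 P))
      ((r : ℂ) * eval ((r : ℂ) ^ 2) (contract 2 P.divX))
    have h2 : ‖(r : ℂ) * eval ((r : ℂ) ^ 2) (contract 2 P.divX)‖ ^ 2 =
        r ^ 2 * ‖eval ((r : ℂ) ^ 2) (contract 2 P.divX)‖ ^ 2 := by
      rw [norm_mul, mul_pow, Complex.norm_real, Real.norm_eq_abs, sq_abs]
    push_cast
    rw [← h2]
    nlinarith [h]
  rcases Nat.even_or_odd' P.natDegree with ⟨m, hm | hm⟩
  · have hle : (contract 2 P).natDegree ≤ m := by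
      rw [natDegree_le_iff_coeff_eq_zero]
      intro i hi
      rw [coeff_contract (by norm_num)]
      apply coeff_eq_zero_of_natDegree_lt
      omega
    have h1 : (contract 2 P).coeff m = 1 := by
      rw [coeff_contract (by norm_num), mul_comm, ← hm]
      exact hP
    refine ⟨contract 2 P, monic_of_natDegree_le_of_coeff_eq_one m hle h1, ?_, ?_⟩
    · have : m ≤ (contract 2 P).natDegree := le_natDegree_of_ne_zero (by rw [h1]; exact one_ne_zero)
      omega
    · intro r hr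
      rw [key]
      have : 0 ≤ r ^ 2 * ‖(contract 2 P.divX).eval ((r ^ 2 : ℝ) : ℂ)‖ ^ 2 := by positivity
      linarith
  · have hle : (contract 2 P.divX).natDegree ≤ m := by
      rw [natDegree_le_iff_coeff_eq_zero]
      intro i hi
      rw [coeff_contract (by norm_num), coeff_divX]
      apply coeff_eq_zero_of_natDegree_lt
      omega
    have h1 : (contract 2 P.divX).coeff m = 1 := by
      rw [coeff_contract (by norm_num), coeff_divX, mul_comm, ← hm]
      exact hP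
    refine ⟨contract 2 P.divX, monic_of_natDegree_le_of_coeff_eq_one m hle h1, ?_, ?_⟩
    · have : m ≤ (contract 2 P.divX).natDegree :=
        le_natDegree_of_ne_zero (by rw [h1]; exact one_ne_zero)
      omega
    · intro r hr
      rw [key]
      have h3 : 0 ≤ ‖(contract 2 P).eval ((r ^ 2 : ℝ) : ℂ)‖ ^ 2 := by positivity
      have h4 : 0 ≤ ‖(contract 2 P.divX).eval ((r ^ 2 : ℝ) : ℂ)‖ ^ 2 := by positivity
      nlinarith

/-- Degree one. -/
lemma mean_deg_one {P : ℂ[X]} (hP : P.Monic) (h1 : P.natDegree = 1) (r : ℝ) :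
    r ^ 2 ≤ (‖P.eval (r : ℂ)‖ ^ 2 + ‖P.eval (-(r : ℂ))‖ ^ 2) / 2 := by
  have hX : P = X + C (P.coeff 0) := hP.eq_X_add_C h1
  rw [hX]
  simp only [eval_add, eval_X, eval_C]
  have h := parallelogram_law_with_norm ℝ (P.coeff 0) (r : ℂ)
  have h2 : ‖(r : ℂ)‖ ^ 2 = r ^ 2 := by rw [Complex.norm_real, Real.norm_eq_abs, sq_abs]
  have e1 : (r : ℂ) + P.coeff 0 = P.coeff 0 + r := add_comm _ _
  have e2 : -(r : ℂ) + P.coeff 0 = P.coeff 0 - r := by ring
  rw [e1, e2]
  nlinarith [h, norm_nonneg (P.coeff 0)]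

variable (S : Sys)

namespace Sys

/-- Iterated means. -/
noncomputable def TT : ℕ → ℕ → (ℝ → ℝ) → ℝ → ℝ
  | 0, _, g, y => g y
  | m + 1, j, g, y => TT m (j + 1) (S.T j g) y

/-- Iterated transforms of measures. -/
noncomputable def PullN : ℕ → ℕ → Measure ℝ → Measure ℝ
  | 0, _, τ => τ
  | m + 1, j, τ => S.Pull j (PullN m (j + 1) τ)

variable {S}

lemma T_mono {j : ℕ} {g g' : ℝ → ℝ} (h : ∀ x, |x| ≤ S.b j → g x ≤ g' x) {y : ℝ}
    (hy : |y| ≤ S.b (j + 1)) : S.T j g y ≤ S.T j g' y := by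
  unfold T
  have h1 := h _ (abs_br_le (s := true) hy)
  have h2 := h _ (abs_br_le (s := false) hy)
  linarith

lemma TT_mono (m : ℕ) : ∀ {j : ℕ} {g g' : ℝ → ℝ}, (∀ x, |x| ≤ S.b j → g x ≤ g' x) → ∀ {y : ℝ},
    |y| ≤ S.b (j + m) → S.TT m j g y ≤ S.TT m j g' y := by
  induction m with
  | zero => intro j g g' h y hy; exact h y hy
  | succ m ih =>
    intro j g g' h y hy
    show S.TT m (j + 1) (S.T j g) y ≤ S.TT m (j + 1) (S.T j g') y
    apply ih
    · intro x hx
      exact T_mono h hx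
    · have : j + 1 + m = j + (m + 1) := by omega
      rw [this]; exact hy

lemma T_eq (j : ℕ) (g : ℝ → ℝ) (y : ℝ) :
    S.T j g y = (g (Real.sqrt (S.c j + y)) + g (-Real.sqrt (S.c j + y))) / 2 := by
  unfold T br
  simp [sg]

/-- The lower bound: for `2 ^ k ≤ deg P < 2 ^ (k + 1)` and every tail value. -/
lemma TT_lower (k : ℕ) : ∀ (j : ℕ) (P : ℂ[X]), P.Monic → 2 ^ k ≤ P.natDegree →
    P.natDegree < 2 ^ (k + 1) → ∀ y : ℝ, |y| ≤ S.b (j + (k + 1)) →
    S.L (j + k) ≤ S.TT (k + 1) j (fun x => ‖P.eval (x : ℂ)‖ ^ 2) y := by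
  induction k with
  | zero =>
    intro j P hP h1 h2 y hy
    have hd : P.natDegree = 1 := by simp at h1 h2; omega
    show S.L j ≤ S.T j (fun x => ‖P.eval (x : ℂ)‖ ^ 2) y
    have hL := L_le (S := S) (j := j) hy
    have hpos : 0 ≤ S.c j + y := by linarith [S.L_pos j]
    rw [T_eq]
    push_cast
    have h3 := mean_deg_one hP hd (Real.sqrt (S.c j + y))
    rw [Real.sq_sqrt hpos] at h3
    linarith
  | succ k ih =>
    intro j P hP h1 h2 y hy
    obtain ⟨Q, hQ, hdQ, hQr⟩ := exists_half hP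
    have hQ' : (Q.comp (Polynomial.X + C (S.c j : ℂ))).Monic := hQ.comp_X_add_C _
    have hdQ' : (Q.comp (Polynomial.X + C (S.c j : ℂ))).natDegree = P.natDegree / 2 := by
      rw [natDegree_comp, natDegree_X_add_C, mul_one, hdQ]
    have hjk : j + (k + 1) = j + 1 + k := by omega
    have hy' : |y| ≤ S.b (j + 1 + (k + 1)) := by
      have : j + 1 + (k + 1) = j + (k + 1 + 1) := by omega
      rw [this]; exact hy
    have h3 := ih (j + 1) _ hQ' (by rw [hdQ']; rw [pow_succ] at h1; omega)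
      (by rw [hdQ']; rw [pow_succ] at h2; omega) y hy'
    rw [hjk]
    refine h3.trans ?_
    show S.TT (k + 1) (j + 1) _ y ≤ S.TT (k + 1) (j + 1) (S.T j _) y
    apply TT_mono (k + 1) _ hy'
    intro x hx
    have hL := L_le (S := S) (j := j) hx
    have h4 := S.four_le_L j
    have hpos : 0 ≤ S.c j + x := by linarith
    rw [T_eq]
    have h5 := hQr (Real.sqrt (S.c j + x)) (by rw [Real.sq_sqrt hpos]; linarith)
    rw [Real.sq_sqrt hpos] at h5
    simp only [eval_comp, eval_add, eval_X, eval_C]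
    push_cast at h5 ⊢
    rw [add_comm (x : ℂ)]
    exact h5

lemma continuous_T {j : ℕ} {g : ℝ → ℝ} (hg : Continuous g) : Continuous (S.T j g) := by
  unfold T
  have h1 := S.continuous_br j true
  have h2 := S.continuous_br j false
  exact ((hg.comp h1).add (hg.comp h2)).div_const _

lemma integrable_of_bdd {κ : Measure ℝ} [IsFiniteMeasure κ] {R : ℝ} (hκ : ∀ᵐ x ∂κ, |x| ≤ R)
    {f : ℝ → ℝ} (hf : Continuous f) : Integrable f κ := by
  obtain ⟨B, hB⟩ := (isCompact_Icc (a := -R) (b := R)).exists_bound_of_continuousOn hf.continuousOn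
  refine Integrable.of_bound hf.aestronglyMeasurable B ?_
  filter_upwards [hκ] with x hx
  exact hB x (abs_le.mp hx)

lemma ae_Pull {j : ℕ} {τ : Measure ℝ} (hτ : ∀ᵐ y ∂τ, |y| ≤ S.b (j + 1)) :
    ∀ᵐ x ∂(S.Pull j τ), |x| ≤ S.b j := by
  have hm : MeasurableSet {x : ℝ | |x| ≤ S.b j}ᶜ :=
    (measurableSet_le measurable_id.abs measurable_const).compl
  have key : ∀ s : Bool, (τ.map (S.br j s)) {x : ℝ | |x| ≤ S.b j}ᶜ = 0 := by
    intro s
    rw [Measure.map_apply (S.continuous_br j s).measurable hm]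
    refine measure_mono_null ?_ (ae_iff.mp hτ)
    intro y hy hy'
    exact hy (abs_br_le hy')
  rw [ae_iff]
  show (S.Pull j τ) {x : ℝ | |x| ≤ S.b j}ᶜ = 0
  rw [Pull, Measure.smul_apply, Measure.add_apply, key, key]
  simp

lemma ae_PullN (m : ℕ) : ∀ {j : ℕ} {τ : Measure ℝ}, (∀ᵐ y ∂τ, |y| ≤ S.b (j + m)) →
    ∀ᵐ x ∂(S.PullN m j τ), |x| ≤ S.b j := by
  induction m with
  | zero => intro j τ h; exact h
  | succ m ih =>
    intro j τ h
    show ∀ᵐ x ∂(S.Pull j (S.PullN m (j + 1) τ)), |x| ≤ S.b j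
    apply ae_Pull
    apply ih
    have : j + 1 + m = j + (m + 1) := by omega
    rw [this]; exact h

instance (m : ℕ) : ∀ (j : ℕ) (τ : Measure ℝ) [IsProbabilityMeasure τ],
    IsProbabilityMeasure (S.PullN m j τ) := by
  induction m with
  | zero => intro j τ h; exact h
  | succ m ih =>
    intro j τ h
    have := ih (j + 1) τ
    show IsProbabilityMeasure (S.Pull j (S.PullN m (j + 1) τ))
    infer_instance

lemma integral_Pull {j : ℕ} {τ : Measure ℝ} [IsProbabilityMeasure τ]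
    (hτ : ∀ᵐ y ∂τ, |y| ≤ S.b (j + 1)) {g : ℝ → ℝ} (hg : Continuous g) :
    ∫ x, g x ∂(S.Pull j τ) = ∫ y, S.T j g y ∂τ := by
  have h1 : ∀ s : Bool, Integrable (fun y => g (S.br j s y)) τ := fun s =>
    integrable_of_bdd hτ (hg.comp (S.continuous_br j s))
  have h2 : ∀ s : Bool, Integrable g (τ.map (S.br j s)) := fun s =>
    (integrable_map_measure hg.aestronglyMeasurable (S.continuous_br j s).aemeasurable).mpr (h1 s)
  rw [Pull, integral_smul_measure, integral_add_measure (h2 true) (h2 false),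
    integral_map (S.continuous_br j true).aemeasurable hg.aestronglyMeasurable,
    integral_map (S.continuous_br j false).aemeasurable hg.aestronglyMeasurable]
  unfold T
  rw [integral_div, integral_add (h1 true) (h1 false)]
  simp only [ENNReal.toReal_inv, ENNReal.toReal_ofNat, smul_eq_mul]
  ring

lemma integral_PullN (m : ℕ) : ∀ {j : ℕ} {τ : Measure ℝ} [IsProbabilityMeasure τ],
    (∀ᵐ y ∂τ, |y| ≤ S.b (j + m)) → ∀ {g : ℝ → ℝ}, Continuous g →
    ∫ x, g x ∂(S.PullN m j τ) = ∫ y, S.TT m j g y ∂τ := by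
  induction m with
  | zero => intro j τ _ h g hg; rfl
  | succ m ih =>
    intro j τ _ h g hg
    have hjm : j + 1 + m = j + (m + 1) := by omega
    have h' : ∀ᵐ y ∂τ, |y| ≤ S.b (j + 1 + m) := by rw [hjm]; exact h
    show ∫ x, g x ∂(S.Pull j (S.PullN m (j + 1) τ)) = ∫ y, S.TT m (j + 1) (S.T j g) y ∂τ
    rw [integral_Pull (ae_PullN m h') hg, ih h' (continuous_T hg)]

lemma continuous_TT (m : ℕ) : ∀ {j : ℕ} {g : ℝ → ℝ}, Continuous g → Continuous (S.TT m j g) := by
  induction m with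
  | zero => intro j g hg; exact hg
  | succ m ih => intro j g hg; exact ih (continuous_T hg)

/-- The lower bound for measures. -/
theorem integral_lower {k : ℕ} {τ : Measure ℝ} [IsProbabilityMeasure τ]
    (hτ : ∀ᵐ y ∂τ, |y| ≤ S.b (k + 1)) {P : ℂ[X]} (hP : P.Monic) (h1 : 2 ^ k ≤ P.natDegree)
    (h2 : P.natDegree < 2 ^ (k + 1)) :
    S.L k ≤ ∫ x, ‖P.eval (x : ℂ)‖ ^ 2 ∂(S.PullN (k + 1) 0 τ) := by
  have hg : Continuous fun x : ℝ => ‖P.eval (x : ℂ)‖ ^ 2 := by fun_prop
  have hτ' : ∀ᵐ y ∂τ, |y| ≤ S.b (0 + (k + 1)) := by rw [zero_add]; exact hτ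
  rw [integral_PullN (k + 1) hτ' hg]
  calc S.L k = ∫ _, S.L k ∂τ := by simp
    _ ≤ _ := by
      apply integral_mono_ae (integrable_const _)
        (integrable_of_bdd hτ (continuous_TT (k + 1) hg))
      filter_upwards [hτ'] with y hy
      have := TT_lower k 0 P hP h1 h2 y hy
      rwa [zero_add] at this

end Sys

end Pool.Agent.Lib_helper39.Widom
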