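import Pool.Agent.Lib_helper39.Widom.Tail

set_option autoImplicit false
open MeasureTheory Filter
open scoped Topology ENNReal NNReal

/-!
The choice of the parameters for a sequence of subexponential growth.
-/

namespace Pool.Agent.Lib_helper39.Widom

section

variable (a : ℕ → ℝ)

/-- The exponential rate of `max (a m) 1`. -/
noncomputable def rate (m : ℕ) : ℝ := Real.log (max (a m) 1) / m

lemma rate_nonneg (m : ℕ) : 0 ≤ rate a m :=
  div_nonneg (Real.log_nonneg (le_max_right _ _)) (Nat.cast_nonneg _)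

/-- The antitone majorant of the rates. -/
noncomputable def maj (n : ℕ) : ℝ := ⨆ i : ℕ, rate a (n + i)

variable {a}

lemma eventually_rate_le (ha : ∀ r : ℝ, 1 < r → ∀ᶠ n in atTop, a n ≤ r ^ n) {ε : ℝ} (hε : 0 < ε) :
    ∀ᶠ m in atTop, rate a m ≤ ε := by
  filter_upwards [ha (Real.exp ε) (Real.one_lt_exp_iff.mpr hε), eventually_ge_atTop 1] with m hm h1
  have h2 : max (a m) 1 ≤ Real.exp ε ^ m :=
    max_le hm (one_le_pow₀ (Real.one_le_exp hε.le))
  have h3 : Real.log (max (a m) 1) ≤ m * ε := by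
    rw [Real.log_le_iff_le_exp (lt_of_lt_of_le one_pos (le_max_right _ _)), Real.exp_nat_mul]
    exact h2
  have hm0 : (0 : ℝ) < m := by exact_mod_cast h1
  unfold rate
  rw [div_le_iff₀ hm0]
  linarith

lemma bddAbove_rate (ha : ∀ r : ℝ, 1 < r → ∀ᶠ n in atTop, a n ≤ r ^ n) (n : ℕ) :
    BddAbove (Set.range fun i : ℕ => rate a (n + i)) := by
  have h1 : BddAbove (Set.range (rate a)) := by
    have h2 : ∀ᶠ m in atTop, rate a m ≤ 1 := eventually_rate_le ha one_pos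
    obtain ⟨N, hN⟩ := eventually_atTop.mp h2
    refine ⟨max 1 (∑ i ∈ Finset.range N, rate a i), ?_⟩
    rintro _ ⟨m, rfl⟩
    rcases lt_or_ge m N with h | h
    · exact le_max_of_le_right (Finset.single_le_sum (f := rate a) (fun i _ => rate_nonneg a i)
        (Finset.mem_range.mpr h))
    · exact le_max_of_le_left (hN m h)
  refine h1.mono ?_
  rintro _ ⟨i, rfl⟩
  exact ⟨n + i, rfl⟩

lemma rate_le_maj (ha : ∀ r : ℝ, 1 < r → ∀ᶠ n in atTop, a n ≤ r ^ n) {n m : ℕ} (h : n ≤ m) :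
    rate a m ≤ maj a n := by
  obtain ⟨i, rfl⟩ := Nat.exists_eq_add_of_le h
  exact le_ciSup (bddAbove_rate ha n) i

lemma maj_nonneg (ha : ∀ r : ℝ, 1 < r → ∀ᶠ n in atTop, a n ≤ r ^ n) (n : ℕ) : 0 ≤ maj a n :=
  (rate_nonneg a n).trans (rate_le_maj ha le_rfl)

lemma maj_antitone (ha : ∀ r : ℝ, 1 < r → ∀ᶠ n in atTop, a n ≤ r ^ n) {n m : ℕ} (h : n ≤ m) :
    maj a m ≤ maj a n :=
  ciSup_le fun i => rate_le_maj ha (h.trans (Nat.le_add_right m i))

lemma tendsto_maj (ha : ∀ r : ℝ, 1 < r → ∀ᶠ n in atTop, a n ≤ r ^ n) :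
    Tendsto (maj a) atTop (𝓝 0) := by
  rw [Metric.tendsto_atTop]
  intro ε hε
  obtain ⟨N, hN⟩ := eventually_atTop.mp (eventually_rate_le ha (half_pos hε))
  refine ⟨N, fun n hn => ?_⟩
  have h1 : maj a n ≤ ε / 2 := ciSup_le fun i => hN (n + i) (hn.trans (Nat.le_add_right n i))
  rw [dist_eq_norm, sub_zero, Real.norm_of_nonneg (maj_nonneg ha n)]
  linarith

lemma le_exp_maj (ha : ∀ r : ℝ, 1 < r → ∀ᶠ n in atTop, a n ≤ r ^ n) {n : ℕ} (hn : 1 ≤ n) :
    max (a n) 1 ≤ Real.exp (n * maj a n) := by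
  have hn0 : (0 : ℝ) < n := by exact_mod_cast hn
  have h1 : Real.log (max (a n) 1) ≤ n * maj a n := by
    have h2 := rate_le_maj ha (le_refl n)
    unfold rate at h2
    rw [div_le_iff₀ hn0] at h2
    linarith
  rwa [Real.log_le_iff_le_exp (lt_of_lt_of_le one_pos (le_max_right _ _))] at h1

/-- The exponents. -/
noncomputable def uu (a : ℕ → ℝ) (k : ℕ) : ℝ :=
  2 * maj a (2 ^ k) + (k + 1) * Real.log 2 / 2 ^ (k + 1)

lemma uu_nonneg (ha : ∀ r : ℝ, 1 < r → ∀ᶠ n in atTop, a n ≤ r ^ n) (k : ℕ) : 0 ≤ uu a k := by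
  have h1 := maj_nonneg ha (2 ^ k)
  have h2 : 0 ≤ Real.log 2 := Real.log_nonneg (by norm_num)
  unfold uu
  positivity

lemma uu_succ_le (ha : ∀ r : ℝ, 1 < r → ∀ᶠ n in atTop, a n ≤ r ^ n) (k : ℕ) :
    uu a (k + 1) ≤ uu a k := by
  have h1 : maj a (2 ^ (k + 1)) ≤ maj a (2 ^ k) :=
    maj_antitone ha (Nat.pow_le_pow_right (by norm_num) (by omega))
  have h2 : 0 ≤ Real.log 2 := Real.log_nonneg (by norm_num)
  have h3 : (((k + 1 : ℕ) : ℝ) + 1) * Real.log 2 / 2 ^ (k + 1 + 1) ≤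
      ((k : ℝ) + 1) * Real.log 2 / 2 ^ (k + 1) := by
    rw [div_le_div_iff₀ (by positivity) (by positivity), pow_succ (2 : ℝ) (k + 1)]
    push_cast
    have h4 : (0 : ℝ) ≤ k := Nat.cast_nonneg k
    have h5 : (0 : ℝ) < 2 ^ (k + 1) := by positivity
    have h6 : 0 ≤ k * Real.log 2 * 2 ^ (k + 1) := by positivity
    nlinarith
  unfold uu
  linarith

lemma tendsto_uu (ha : ∀ r : ℝ, 1 < r → ∀ᶠ n in atTop, a n ≤ r ^ n) :
    Tendsto (uu a) atTop (𝓝 0) := by
  have h1 : Tendsto (fun k : ℕ => maj a (2 ^ k)) atTop (𝓝 0) :=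
    (tendsto_maj ha).comp (tendsto_pow_atTop_atTop_of_one_lt (by norm_num))
  have h2 : Tendsto (fun k : ℕ => ((k : ℝ) + 1) * Real.log 2 / 2 ^ (k + 1)) atTop (𝓝 0) := by
    have h3 : Tendsto (fun n : ℕ => (n : ℝ) ^ 1 / (2 : ℝ) ^ n) atTop (𝓝 0) :=
      tendsto_pow_const_div_const_pow_of_one_lt 1 (by norm_num)
    have h4 := (h3.comp (tendsto_add_atTop_nat 1)).mul_const (Real.log 2)
    rw [zero_mul] at h4
    refine h4.congr fun k => ?_
    simp only [Function.comp_apply, pow_one]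
    push_cast
    ring
  have h5 := (h1.const_mul 2).add h2
  rw [mul_zero, add_zero] at h5
  exact h5

/-- The parameters. -/
noncomputable def mkSys (ha : ∀ r : ℝ, 1 < r → ∀ᶠ n in atTop, a n ≤ r ^ n) : Sys where
  b k := 4 * Real.exp (2 ^ k * uu a k)
  L k := (4 * Real.exp (2 ^ k * uu a k)) ^ 2 / 2
  c k := (4 * Real.exp (2 ^ k * uu a k)) ^ 2 - 4 * Real.exp (2 ^ (k + 1) * uu a (k + 1))
  two_le_b k := by
    have h := Real.one_le_exp (mul_nonneg (pow_nonneg (by norm_num) k) (uu_nonneg ha k) :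
      (0:ℝ) ≤ 2 ^ k * uu a k)
    linarith
  four_le_L k := by
    have h := Real.one_le_exp (mul_nonneg (pow_nonneg (by norm_num) k) (uu_nonneg ha k) :
      (0:ℝ) ≤ 2 ^ k * uu a k)
    nlinarith
  cb k := by linarith
  Lc k := by
    have h1 : Real.exp (2 ^ (k + 1) * uu a (k + 1)) ≤ Real.exp (2 ^ k * uu a k) ^ 2 := by
      rw [← Real.exp_nat_mul]
      apply Real.exp_le_exp.mpr
      have h2 := uu_succ_le ha k
      have h3 : (2 : ℝ) ^ (k + 1) * uu a (k + 1) ≤ 2 ^ (k + 1) * uu a k :=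
        mul_le_mul_of_nonneg_left h2 (by positivity)
      rw [pow_succ] at h3 ⊢
      push_cast
      linarith
    nlinarith
  bL k := by linarith
  small := by
    have h1 : (fun k : ℕ => Real.log (4 * Real.exp (2 ^ k * uu a k)) / 2 ^ k) =
        fun k : ℕ => Real.log 4 / 2 ^ k + uu a k := by
      funext k
      rw [Real.log_mul (by norm_num) (Real.exp_pos _).ne', Real.log_exp]
      field_simp
    rw [h1]
    have h2 : Tendsto (fun k : ℕ => Real.log 4 / (2 : ℝ) ^ k) atTop (𝓝 0) :=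
      Tendsto.div_atTop tendsto_const_nhds (tendsto_pow_atTop_atTop_of_one_lt (by norm_num))
    have h3 := h2.add (tendsto_uu ha)
    rwa [add_zero] at h3

/-- The parameters are large enough. -/
lemma mkSys_lower (ha : ∀ r : ℝ, 1 < r → ∀ᶠ n in atTop, a n ≤ r ^ n) {k n : ℕ} (h1 : 2 ^ k ≤ n)
    (h2 : n < 2 ^ (k + 1)) : max (a n) 1 ^ 2 ≤ (2⁻¹ : ℝ) ^ (k + 1) * (mkSys ha).L k := by
  have hn1 : 1 ≤ n := (Nat.one_le_two_pow).trans h1
  have h3 := le_exp_maj ha hn1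
  have h4 : (n : ℝ) * maj a n ≤ 2 ^ (k + 1) * maj a (2 ^ k) := by
    apply mul_le_mul _ (maj_antitone ha h1) (maj_nonneg ha n) (by positivity)
    exact_mod_cast h2.le
  have h5 : max (a n) 1 ≤ Real.exp (2 ^ (k + 1) * maj a (2 ^ k)) :=
    h3.trans (Real.exp_le_exp.mpr h4)
  have h6 : max (a n) 1 ^ 2 ≤ Real.exp (2 * (2 ^ (k + 1) * maj a (2 ^ k))) := by
    have := pow_le_pow_left₀ (zero_le_one.trans (le_max_right (a n) 1)) h5 2
    rw [← Real.exp_nat_mul] at this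
    exact_mod_cast this
  have h7 : (mkSys ha).L k = 8 * Real.exp (2 ^ (k + 1) * uu a k) := by
    show (4 * Real.exp (2 ^ k * uu a k)) ^ 2 / 2 = _
    have : Real.exp (2 ^ (k + 1) * uu a k) = Real.exp (2 ^ k * uu a k) ^ 2 := by
      rw [← Real.exp_nat_mul]
      congr 1
      push_cast
      ring
    rw [this]
    ring
  have h8 : (2 : ℝ) ^ (k + 1) * uu a k =
      2 * (2 ^ (k + 1) * maj a (2 ^ k)) + (k + 1 : ℕ) * Real.log 2 := by
    unfold uu
    push_cast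
    field_simp
  have h9 : Real.exp (2 ^ (k + 1) * uu a k) =
      Real.exp (2 * (2 ^ (k + 1) * maj a (2 ^ k))) * 2 ^ (k + 1) := by
    rw [h8, Real.exp_add, Real.exp_nat_mul, Real.exp_log (by norm_num)]
  rw [h7, h9]
  have h10 : (2⁻¹ : ℝ) ^ (k + 1) * (8 * (Real.exp (2 * (2 ^ (k + 1) * maj a (2 ^ k))) *
      2 ^ (k + 1))) = 8 * Real.exp (2 * (2 ^ (k + 1) * maj a (2 ^ k))) := by
    rw [inv_pow]
    field_simp
  rw [h10]
  have := Real.exp_pos (2 * (2 ^ (k + 1) * maj a (2 ^ k)))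
  linarith

end

end Pool.Agent.Lib_helper39.Widom
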