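import Pool.Agent.Lib_helper39.Widom.Lower

set_option autoImplicit false
open MeasureTheory Filter
open scoped Topology ENNReal NNReal

/-!
Product measures on the sequences of signs and the measures `nu k`.
-/

namespace Pool.Agent.Lib_helper39.Widom

open WidomLib (coin)

/-- Putting a digit in front of a sequence. -/
def consSeq (p : Bool × (ℕ → Bool)) : ℕ → Bool
  | 0 => p.1
  | n + 1 => p.2 n

lemma measurable_consSeq : Measurable consSeq := by
  rw [measurable_pi_iff]
  intro n
  cases n with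
  | zero => exact measurable_fst
  | succ n => exact (measurable_pi_apply n).comp measurable_snd

lemma shift_consSeq (p : Bool × (ℕ → Bool)) : shift (consSeq p) = p.2 := rfl

lemma map_consSeq (κ : ℕ → Measure Bool) [∀ i, IsProbabilityMeasure (κ i)] :
    ((κ 0).prod (Measure.infinitePi fun i => κ (i + 1))).map consSeq = Measure.infinitePi κ := by
  classical
  apply Measure.eq_infinitePi
  intro s t ht
  obtain ⟨m, hm⟩ : ∃ m, s ⊆ Finset.range (m + 1) := by
    obtain ⟨m, hm⟩ := s.exists_nat_subset_range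
    exact ⟨m, hm.trans (Finset.range_mono (by omega))⟩
  set t' : ℕ → Set Bool := fun i => if i ∈ s then t i else Set.univ with ht'
  have h1 : Set.pi (s : Set ℕ) t = Set.pi (Finset.range (m + 1) : Set ℕ) t' := by
    ext x
    simp only [Set.mem_pi, Finset.mem_coe, ht']
    constructor
    · intro h i _
      by_cases his : i ∈ s
      · rw [if_pos his]; exact h i his
      · rw [if_neg his]; trivial
    · intro h i his
      have := h i (hm his)
      rwa [if_pos his] at this
  have h2 : ∏ i ∈ s, κ i (t i) = ∏ i ∈ Finset.range (m + 1), κ i (t' i) := by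
    rw [← Finset.prod_subset hm]
    · refine Finset.prod_congr rfl fun i hi => ?_
      rw [ht']
      simp only [if_pos hi]
    · intro i _ hi
      rw [ht']
      simp only [if_neg hi, measure_univ]
  have hmt : ∀ u : Set Bool, MeasurableSet u := fun u => MeasurableSet.of_discrete
  have hmp : MeasurableSet (Set.pi (Finset.range (m + 1) : Set ℕ) t') :=
    MeasurableSet.pi (Finset.countable_toSet _) fun i _ => hmt _
  rw [h1, h2, Measure.map_apply measurable_consSeq hmp]
  have h3 : consSeq ⁻¹' (Set.pi (Finset.range (m + 1) : Set ℕ) t') =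
      t' 0 ×ˢ Set.pi (Finset.range m : Set ℕ) fun i => t' (i + 1) := by
    ext p
    simp only [Set.mem_preimage, Set.mem_pi, Finset.coe_range, Set.mem_Iio, Set.mem_prod]
    constructor
    · intro h
      exact ⟨h 0 (by omega), fun i hi => h (i + 1) (by omega)⟩
    · rintro ⟨h0, h⟩ i hi
      cases i with
      | zero => exact h0
      | succ i => exact h i (by omega)
  rw [h3, Measure.prod_prod, Measure.infinitePi_pi _ (fun i _ => hmt _), Finset.prod_range_succ',
    mul_comm]

variable (S : Sys)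

namespace Sys

/-- The law of `X j` when the digits are independent with the laws `κ 0, κ 1, ...`. -/
noncomputable def law (j : ℕ) (κ : ℕ → Measure Bool) : Measure ℝ :=
  (Measure.infinitePi κ).map (S.X j)

instance (j : ℕ) (κ : ℕ → Measure Bool) [∀ i, IsProbabilityMeasure (κ i)] :
    IsProbabilityMeasure (S.law j κ) :=
  Measure.isProbabilityMeasure_map (continuous_X j).aemeasurable

variable {S}

lemma measurable_X (j : ℕ) : Measurable (S.X j) := (continuous_X j).measurable

lemma X_consSeq (j : ℕ) (s : Bool) (e : ℕ → Bool) :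
    S.X j (consSeq (s, e)) = S.br j s (S.X (j + 1) e) := by
  rw [X_eq]
  rfl

lemma law_eq (j : ℕ) (κ : ℕ → Measure Bool) [∀ i, IsProbabilityMeasure (κ i)] (h0 : κ 0 = coin) :
    S.law j κ = S.Pull j (S.law (j + 1) fun i => κ (i + 1)) := by
  have hb : ∀ s, Measurable (S.br j s) := fun s => (S.continuous_br j s).measurable
  ext A hA
  rw [law, ← map_consSeq, Measure.map_map (measurable_X j) measurable_consSeq,
    Measure.map_apply ((measurable_X j).comp measurable_consSeq) hA,
    Measure.prod_apply (((measurable_X j).comp measurable_consSeq) hA), h0]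
  have h1 : ∀ s : Bool, Prod.mk s ⁻¹' (S.X j ∘ consSeq ⁻¹' A) =
      S.X (j + 1) ⁻¹' (S.br j s ⁻¹' A) := by
    intro s
    ext e
    simp only [Set.mem_preimage, Function.comp_apply, X_consSeq]
  simp only [h1]
  rw [Pull, Measure.smul_apply, Measure.add_apply, Measure.map_apply (hb true) hA,
    Measure.map_apply (hb false) hA, law, Measure.map_apply (measurable_X _) ((hb true) hA),
    Measure.map_apply (measurable_X _) ((hb false) hA), coin, lintegral_smul_measure,
    lintegral_add_measure, lintegral_dirac, lintegral_dirac, smul_eq_mul, smul_eq_mul, add_comm]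

lemma law_eq_PullN (m : ℕ) : ∀ (j : ℕ) (κ : ℕ → Measure Bool) [∀ i, IsProbabilityMeasure (κ i)],
    (∀ i < m, κ i = coin) → S.law j κ = S.PullN m j (S.law (j + m) fun i => κ (i + m)) := by
  induction m with
  | zero => intro j κ _ _; rfl
  | succ m ih =>
    intro j κ _ h
    rw [law_eq j κ (h 0 (by omega)), ih (j + 1) (fun i => κ (i + 1)) (fun i hi => h _ (by omega))]
    have h1 : j + 1 + m = j + (m + 1) := by omega
    rw [h1]
    rfl

lemma ae_law (j : ℕ) (κ : ℕ → Measure Bool) [∀ i, IsProbabilityMeasure (κ i)] :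
    ∀ᵐ x ∂(S.law j κ), |x| ≤ S.b j := by
  have hm : MeasurableSet {x : ℝ | |x| ≤ S.b j} := measurableSet_le (by fun_prop) measurable_const
  rw [law, ae_map_iff (measurable_X j).aemeasurable hm]
  exact Eventually.of_forall fun e => abs_X_le j e

end Sys

open Classical in
/-- The laws of the digits of the measure `nu k`: the first `k + 1` digits and the digits at the
places `8 ^ m` are fair coins, the others are `true`. -/
noncomputable def kap (k i : ℕ) : Measure Bool :=
  if i < k + 1 ∨ ∃ m, i = 8 ^ m then coin else Measure.dirac true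

instance (k i : ℕ) : IsProbabilityMeasure (kap k i) := by
  unfold kap
  split_ifs <;> infer_instance

/-- The sequences of digits which `nu k` uses. -/
def Fr (k : ℕ) : Set (ℕ → Bool) := {e | ∀ i, ¬ (i < k + 1 ∨ ∃ m, i = 8 ^ m) → e i = true}

lemma measurableSet_Fr (k : ℕ) : MeasurableSet (Fr k) := by
  have : Fr k = ⋂ i, ⋂ (_ : ¬ (i < k + 1 ∨ ∃ m, i = 8 ^ m)), {e : ℕ → Bool | e i = true} := by
    ext e; simp [Fr]
  rw [this]
  refine MeasurableSet.iInter fun i => MeasurableSet.iInter fun _ => ?_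
  have h1 : MeasurableSet ((fun e : ℕ → Bool => e i) ⁻¹' {true}) :=
    (measurable_pi_apply i) (measurableSet_singleton true)
  exact h1

lemma kap_Fr (k : ℕ) : (Measure.infinitePi (kap k)) (Fr k)ᶜ = 0 := by
  have h1 : (Fr k)ᶜ ⊆ ⋃ i : {i : ℕ // ¬ (i < k + 1 ∨ ∃ m, i = 8 ^ m)},
      {e : ℕ → Bool | e i.1 = false} := by
    intro e he
    simp only [Fr, Set.mem_compl_iff, Set.mem_ofPred_eq, not_forall] at he
    obtain ⟨i, hi, hei⟩ := he
    rw [Set.mem_iUnion]
    exact ⟨⟨i, hi⟩, by simpa using hei⟩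
  refine measure_mono_null h1 ?_
  rw [measure_iUnion_null_iff]
  rintro ⟨i, hi⟩
  have h2 : {e : ℕ → Bool | e i = false} = Set.pi (({i} : Finset ℕ) : Set ℕ) fun _ => {false} := by
    ext e; simp
  rw [h2, Measure.infinitePi_pi _ (fun _ _ => measurableSet_singleton _), Finset.prod_singleton]
  unfold kap
  rw [if_neg hi]
  simp

lemma kap_singleton (k : ℕ) (e : ℕ → Bool) : (Measure.infinitePi (kap k)) {e} = 0 := by
  have h : ∀ m : ℕ, (Measure.infinitePi (kap k)) {e} ≤ (2⁻¹ : ℝ≥0∞) ^ m := by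
    intro m
    have hinj : Function.Injective fun i : ℕ => 8 ^ i := Nat.pow_right_injective (by norm_num)
    have h1 : ({e} : Set (ℕ → Bool)) ⊆
        Set.pi (((Finset.range m).map (⟨fun i => 8 ^ i, hinj⟩ : ℕ ↪ ℕ) : Finset ℕ) : Set ℕ) (fun i => {e i}) := by
      rintro x rfl
      intro i _
      simp
    calc (Measure.infinitePi (kap k)) {e}
        ≤ (Measure.infinitePi (kap k))
          (Set.pi (((Finset.range m).map (⟨fun i => 8 ^ i, hinj⟩ : ℕ ↪ ℕ) : Finset ℕ) : Set ℕ) (fun i => {e i})) :=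
          measure_mono h1
      _ = ∏ i ∈ (Finset.range m).map (⟨fun i => 8 ^ i, hinj⟩ : ℕ ↪ ℕ), (kap k i) {e i} :=
          Measure.infinitePi_pi _ (fun i _ => measurableSet_singleton _)
      _ = ∏ i ∈ Finset.range m, (kap k (8 ^ i)) {e (8 ^ i)} := by
          rw [Finset.prod_map]
          rfl
      _ = (2⁻¹ : ℝ≥0∞) ^ m := by
          have : ∀ i ∈ Finset.range m, (kap k (8 ^ i)) {e (8 ^ i)} = 2⁻¹ := by
            intro i _
            unfold kap
            rw [if_pos (Or.inr ⟨i, rfl⟩)]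
            exact WidomLib.coin_singleton _
          rw [Finset.prod_congr rfl this, Finset.prod_const, Finset.card_range]
  have hlim : Tendsto (fun m : ℕ => (2⁻¹ : ℝ≥0∞) ^ m) atTop (𝓝 0) :=
    ENNReal.tendsto_pow_atTop_nhds_zero_of_lt_one (by simp)
  exact le_antisymm (ge_of_tendsto' hlim h) zero_le

/-- The cylinder of the first `k + 1` digits of `e` has mass `2 ^ (-(k + 1))`. -/
lemma kap_cylinder (k : ℕ) (e : ℕ → Bool) :
    (Measure.infinitePi (kap k)) {e' | ∀ i < k + 1, e' i = e i} = (2⁻¹ : ℝ≥0∞) ^ (k + 1) := by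
  have h1 : {e' : ℕ → Bool | ∀ i < k + 1, e' i = e i} =
      Set.pi (Finset.range (k + 1) : Set ℕ) fun i => {e i} := by
    ext e'; simp [Set.mem_pi]
  rw [h1, Measure.infinitePi_pi _ (fun _ _ => measurableSet_singleton _)]
  have : ∀ i ∈ Finset.range (k + 1), (kap k i) {e i} = 2⁻¹ := by
    intro i hi
    rw [Finset.mem_range] at hi
    unfold kap
    rw [if_pos (Or.inl hi)]
    exact WidomLib.coin_singleton _
  rw [Finset.prod_congr rfl this, Finset.prod_const, Finset.card_range]

namespace Sys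

/-- The image in the plane of the sequences `Fr k`. -/
def Dk (k : ℕ) : Set ℂ := (fun e => ((S.X 0 e : ℝ) : ℂ)) '' Fr k

lemma isCompact_Fr (k : ℕ) : IsCompact (Fr k) := by
  apply IsClosed.isCompact
  have : Fr k = ⋂ i, ⋂ (_ : ¬ (i < k + 1 ∨ ∃ m, i = 8 ^ m)), {e : ℕ → Bool | e i = true} := by
    ext e; simp [Fr]
  rw [this]
  refine isClosed_iInter fun i => isClosed_iInter fun _ => ?_
  have h1 : IsClosed ((fun e : ℕ → Bool => e i) ⁻¹' {true}) :=
    (isClosed_discrete ({true} : Set Bool)).preimage (continuous_apply i)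
  exact h1

lemma isCompact_Dk (k : ℕ) : IsCompact (S.Dk k) :=
  (isCompact_Fr k).image (Complex.continuous_ofReal.comp (continuous_X 0))

/-- The sets `Dk` are polar. -/
lemma thin_Dk (k : ℕ) : WidomLib.Thin (S.Dk k) := by
  classical
  intro M
  have hb := S.b_pos 0
  have hl2 : 0 < Real.log 2 := Real.log_pos (by norm_num)
  -- the extension of a finite pattern
  let ext : (m : ℕ) → (Fin (k + 1) → Bool) → (Fin m → Bool) → ℕ → Bool := fun m a a' i =>
    if h : i < k + 1 then a ⟨i, h⟩ else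
      if h' : ∃ l : Fin m, i = 8 ^ (l : ℕ) then a' h'.choose else true
  have hcover : ∀ m : ℕ, ∃ F : Finset ℂ, F.card ≤ 2 ^ (k + 1) * 2 ^ m ∧
      S.Dk k ⊆ ⋃ a ∈ F, Metric.closedBall a (2 * S.b 0 / Real.sqrt 2 ^ (8 ^ m)) := by
    intro m
    refine ⟨Finset.image (fun p : (Fin (k + 1) → Bool) × (Fin m → Bool) =>
      ((S.X 0 (ext m p.1 p.2) : ℝ) : ℂ)) Finset.univ, ?_, ?_⟩
    · refine Finset.card_image_le.trans ?_
      simp
    · rintro _ ⟨e, he, rfl⟩
      simp only [Set.mem_iUnion, Finset.mem_image, Finset.mem_univ, true_and, exists_prop]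
      refine ⟨_, ⟨⟨fun i => e i, fun l => e (8 ^ (l : ℕ))⟩, rfl⟩, ?_⟩
      rw [Metric.mem_closedBall, dist_eq_norm, ← Complex.ofReal_sub, Complex.norm_real,
        Real.norm_eq_abs]
      apply abs_X_sub
      intro i hi
      show e i = ext m (fun i => e i) (fun l => e (8 ^ (l : ℕ))) i
      simp only [ext]
      split_ifs with h1 h2
      · rfl
      · conv_lhs => rw [h2.choose_spec]
      · apply he
        rintro (h | ⟨l, hl⟩)
        · exact h1 h
        · apply h2
          have hlm : l < m := by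
            rw [hl] at hi
            exact (Nat.pow_lt_pow_iff_right (by norm_num)).mp hi
          exact ⟨⟨l, hlm⟩, hl⟩
  -- the growth
  have hgrow : Tendsto (fun m : ℕ => (8 : ℝ) ^ m * (Real.log 2 / 2) - Real.log (4 * S.b 0) -
      max M 0 * ((2 : ℝ) ^ (k + 1)) ^ 2 * 4 ^ m) atTop atTop := by
    have h1 : (fun m : ℕ => (8 : ℝ) ^ m * (Real.log 2 / 2) - Real.log (4 * S.b 0) -
        max M 0 * ((2 : ℝ) ^ (k + 1)) ^ 2 * 4 ^ m) =
        fun m : ℕ => (4 : ℝ) ^ m * ((2 : ℝ) ^ m * (Real.log 2 / 2) -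
          max M 0 * ((2 : ℝ) ^ (k + 1)) ^ 2) + (- Real.log (4 * S.b 0)) := by
      funext m
      have : (8 : ℝ) ^ m = 4 ^ m * 2 ^ m := by rw [← mul_pow]; norm_num
      rw [this]; ring
    rw [h1]
    apply tendsto_atTop_add_const_right
    apply Tendsto.atTop_mul_atTop₀ (tendsto_pow_atTop_atTop_of_one_lt (by norm_num))
    apply tendsto_atTop_add_const_right
    apply Tendsto.atTop_mul_const (by positivity)
    exact tendsto_pow_atTop_atTop_of_one_lt (by norm_num)
  have hsmall : ∀ᶠ m : ℕ in atTop, 2 * (2 * S.b 0 / Real.sqrt 2 ^ (8 ^ m)) < 1 := by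
    have h1 : Tendsto (fun m : ℕ => 2 * (2 * S.b 0 / Real.sqrt 2 ^ (8 ^ m))) atTop (𝓝 (2 * 0)) := by
      apply Tendsto.const_mul
      exact (tendsto_diam (S := S) 0).comp (tendsto_pow_atTop_atTop_of_one_lt (by norm_num))
    rw [mul_zero] at h1
    exact h1.eventually_lt_const one_pos
  obtain ⟨m, hm1, hm2⟩ := ((hgrow.eventually_ge_atTop 0).and hsmall).exists
  obtain ⟨F, hF, hcov⟩ := hcover m
  have hs2 : 0 < Real.sqrt 2 := Real.sqrt_pos.mpr (by norm_num)
  refine ⟨F, _, by positivity, hm2, hcov, ?_⟩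
  have hlog : -Real.log (2 * (2 * S.b 0 / Real.sqrt 2 ^ (8 ^ m))) =
      8 ^ m * (Real.log 2 / 2) - Real.log (4 * S.b 0) := by
    have e1 : 2 * (2 * S.b 0 / Real.sqrt 2 ^ (8 ^ m)) = (4 * S.b 0) / Real.sqrt 2 ^ (8 ^ m) := by
      ring
    rw [e1, Real.log_div (by positivity) (by positivity), Real.log_pow,
      Real.log_sqrt (by norm_num)]
    push_cast
    ring
  rw [hlog]
  have hFr : (F.card : ℝ) ≤ 2 ^ (k + 1) * 2 ^ m := by exact_mod_cast hF
  have h4 : (F.card : ℝ) ^ 2 ≤ ((2 : ℝ) ^ (k + 1)) ^ 2 * 4 ^ m := by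
    calc (F.card : ℝ) ^ 2 ≤ (2 ^ (k + 1) * 2 ^ m) ^ 2 := by gcongr
      _ = ((2 : ℝ) ^ (k + 1)) ^ 2 * 4 ^ m := by
        rw [mul_pow, ← pow_mul 2 m 2, mul_comm m 2, pow_mul 2 2 m]
        norm_num
  calc M * (F.card : ℝ) ^ 2 ≤ max M 0 * (F.card : ℝ) ^ 2 := by
        gcongr; exact le_max_left _ _
    _ ≤ max M 0 * (((2 : ℝ) ^ (k + 1)) ^ 2 * 4 ^ m) := by gcongr
    _ ≤ _ := by linarith

/-- The measures `nu k` on the real line. -/
noncomputable def nuR (k : ℕ) : Measure ℝ := S.law 0 (kap k)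

/-- The measures `nu k` in the plane. -/
noncomputable def nu (k : ℕ) : Measure ℂ := (S.nuR k).map fun x : ℝ => (x : ℂ)

/-- The measure. -/
noncomputable def mu : Measure ℂ := Measure.sum fun k => (2⁻¹ : ℝ≥0∞) ^ (k + 1) • S.nu k

instance (k : ℕ) : IsProbabilityMeasure (S.nuR k) := by unfold nuR; infer_instance

instance (k : ℕ) : IsProbabilityMeasure (S.nu k) :=
  Measure.isProbabilityMeasure_map Complex.continuous_ofReal.aemeasurable

instance : IsProbabilityMeasure S.mu := by
  constructor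
  unfold mu
  rw [Measure.sum_apply _ MeasurableSet.univ]
  simp only [Measure.smul_apply, measure_univ, smul_eq_mul, mul_one]
  rw [ENNReal.tsum_geometric_add_one, ENNReal.one_sub_inv_two, inv_inv]
  exact ENNReal.inv_mul_cancel (by simp) (by simp)

lemma nu_apply (k : ℕ) {U : Set ℂ} (hU : MeasurableSet U) :
    S.nu k U = (Measure.infinitePi (kap k)) ((fun e => ((S.X 0 e : ℝ) : ℂ)) ⁻¹' U) := by
  rw [nu, Measure.map_apply Complex.measurable_ofReal hU, nuR, law,
    Measure.map_apply (measurable_X 0) (Complex.measurable_ofReal hU)]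
  rfl

lemma mu_null {U : Set ℂ} (hU : MeasurableSet U) (h : ∀ k, S.nu k U = 0) : S.mu U = 0 := by
  unfold mu
  rw [Measure.sum_apply _ hU, ENNReal.tsum_eq_zero]
  intro k
  rw [Measure.smul_apply, h k, smul_zero]

instance : NullSingletonClass S.mu := by
  constructor
  intro x
  apply S.mu_null (measurableSet_singleton x)
  intro k
  rw [S.nu_apply k (measurableSet_singleton x)]
  rcases Set.eq_empty_or_nonempty ((fun e => ((S.X 0 e : ℝ) : ℂ)) ⁻¹' {x}) with h | ⟨e, he⟩
  · rw [h]; simp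
  · refine measure_mono_null ?_ (kap_singleton k e)
    intro e' he'
    simp only [Set.mem_preimage, Set.mem_singleton_iff] at he he' ⊢
    apply X_injective 0
    exact_mod_cast he'.trans he.symm

lemma nu_Dk_compl (k : ℕ) : S.nu k (S.Dk k)ᶜ = 0 := by
  rw [S.nu_apply k (S.isCompact_Dk k).isClosed.measurableSet.compl]
  refine measure_mono_null ?_ (kap_Fr k)
  intro e he heF
  exact he ⟨e, heF, rfl⟩

/-- `mu` is carried by the union of the polar sets `Dk`. -/
lemma mu_Dk_compl : S.mu (⋃ k, S.Dk k)ᶜ = 0 := by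
  apply S.mu_null
  · exact (MeasurableSet.iUnion fun k => (S.isCompact_Dk k).isClosed.measurableSet).compl
  · intro k
    exact measure_mono_null (Set.compl_subset_compl.mpr (Set.subset_iUnion S.Dk k)) (S.nu_Dk_compl k)

lemma mu_K_compl : S.mu S.Kᶜ = 0 := by
  apply S.mu_null S.isCompact_K.isClosed.measurableSet.compl
  intro k
  rw [S.nu_apply k S.isCompact_K.isClosed.measurableSet.compl]
  have : (fun e => ((S.X 0 e : ℝ) : ℂ)) ⁻¹' S.Kᶜ = ∅ := by
    ext e
    simp only [Set.mem_preimage, Set.mem_compl_iff, Set.mem_empty_iff_false, iff_false, not_not]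
    exact ⟨_, ⟨e, rfl⟩, rfl⟩
  rw [this]; simp

/-- The support of `mu` is the whole Julia set. -/
theorem support_mu : S.mu.support = S.K := by
  apply Set.Subset.antisymm
  · exact Measure.support_subset_of_isClosed S.isCompact_K.isClosed S.mu_K_compl
  · rintro _ ⟨_, ⟨e, rfl⟩, rfl⟩
    rw [Measure.mem_support_iff_forall]
    intro U hU
    obtain ⟨ε, hε, hball⟩ := Metric.mem_nhds_iff.mp hU
    obtain ⟨k, hk⟩ := (((tendsto_diam (S := S) 0).comp (tendsto_add_atTop_nat 1)).eventually_lt_const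
      hε).exists
    have h1 : {e' : ℕ → Bool | ∀ i < k + 1, e' i = e i} ⊆
        (fun e => ((S.X 0 e : ℝ) : ℂ)) ⁻¹' (Metric.ball ((S.X 0 e : ℝ) : ℂ) ε) := by
      intro e' he'
      rw [Set.mem_preimage, Metric.mem_ball, dist_eq_norm, ← Complex.ofReal_sub, Complex.norm_real,
        Real.norm_eq_abs]
      exact (abs_X_sub (k + 1) 0 e' e he').trans_lt hk
    have h2 : 0 < S.nu k (Metric.ball ((S.X 0 e : ℝ) : ℂ) ε) := by
      rw [S.nu_apply k Metric.isOpen_ball.measurableSet]
      refine lt_of_lt_of_le ?_ (measure_mono h1)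
      rw [kap_cylinder]
      exact ENNReal.pow_pos (by simp) _
    have h3 : 0 < S.mu (Metric.ball ((S.X 0 e : ℝ) : ℂ) ε) := by
      have hle := Measure.le_sum (fun k => (2⁻¹ : ℝ≥0∞) ^ (k + 1) • S.nu k) k
        (Metric.ball ((S.X 0 e : ℝ) : ℂ) ε)
      refine lt_of_lt_of_le ?_ hle
      rw [Measure.smul_apply, smul_eq_mul]
      exact ENNReal.mul_pos (pow_ne_zero _ (by simp)) h2.ne'
    exact lt_of_lt_of_le h3 (measure_mono hball)

/-- The lower bound for the norms of monic polynomials. -/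
theorem mu_lower {k : ℕ} {P : Polynomial ℂ} (hP : P.Monic) (h1 : 2 ^ k ≤ P.natDegree)
    (h2 : P.natDegree < 2 ^ (k + 1)) (hint : Integrable (fun z : ℂ => ‖P.eval z‖ ^ 2) S.mu) :
    (2⁻¹ : ℝ) ^ (k + 1) * S.L k ≤ ∫ z, ‖P.eval z‖ ^ 2 ∂S.mu := by
  have hle : (2⁻¹ : ℝ≥0∞) ^ (k + 1) • S.nu k ≤ S.mu :=
    Measure.le_sum (fun k => (2⁻¹ : ℝ≥0∞) ^ (k + 1) • S.nu k) k
  have h3 : ∫ z, ‖P.eval z‖ ^ 2 ∂((2⁻¹ : ℝ≥0∞) ^ (k + 1) • S.nu k) ≤ ∫ z, ‖P.eval z‖ ^ 2 ∂S.mu :=
    integral_mono_measure hle (Eventually.of_forall fun _ => by positivity) hint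
  refine le_trans ?_ h3
  have hcont : Continuous fun z : ℂ => ‖P.eval z‖ ^ 2 := by fun_prop
  rw [integral_smul_measure, nu, integral_map Complex.continuous_ofReal.aemeasurable
    hcont.aestronglyMeasurable, nuR, law_eq_PullN (k + 1) 0 (kap k)]
  · have h4 := integral_lower (S := S) (k := k) (τ := S.law (0 + (k + 1)) fun i => kap k (i + (k + 1)))
      (by rw [zero_add]; exact ae_law _ _) hP h1 h2
    simp only [smul_eq_mul]
    have h5 : ((2⁻¹ : ℝ≥0∞) ^ (k + 1)).toReal = (2⁻¹ : ℝ) ^ (k + 1) := by simp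
    rw [h5]
    gcongr
  · intro i hi
    unfold kap
    rw [if_pos (Or.inl hi)]

end Sys

end Pool.Agent.Lib_helper39.Widom
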