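import Pool.Agent.Lib_helper39.Widom.Num
import Pool.Agent.Lib_helper88.WE.Equil
import Pool.Agent.Lib_helper88.WE.Pot
import Pool.Agent.WJ.Pos

set_option autoImplicit false
open MeasureTheory Filter
open scoped Topology ENNReal NNReal

/-!
Uniqueness of the equilibrium measure.
-/

namespace Pool.Agent.Lib_helper39.Widom

open Pool.Agent.WidomLib (prod_diag_null)
open Pool.Agent.Lib_helper88.WE

/-- A measure without atoms and of energy zero on the Julia set is the equilibrium measure. -/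
theorem eq_unique (S : Sys) (rho : Measure ℂ) [IsProbabilityMeasure rho] [NullSingletonClass rho]
    (h : rho S.Kᶜ = 0) (hint : Integrable (fun p : ℂ × ℂ => Real.log ‖p.1 - p.2‖) (rho.prod rho))
    (h0 : ∫ p, Real.log ‖p.1 - p.2‖ ∂(rho.prod rho) = 0) : rho = om S := by
  have hK : ∀ z ∈ S.K, z.im = 0 ∧ |z.re| ≤ S.b 0 := by
    rintro _ ⟨_, ⟨e, rfl⟩, rfl⟩
    exact ⟨Complex.ofReal_im _, by rw [Complex.ofReal_re]; exact Sys.abs_X_le 0 e⟩
  have hae : ∀ (ν : Measure ℂ), ν S.Kᶜ = 0 → ∀ᵐ z ∂ν, z.im = 0 ∧ |z.re| ≤ S.b 0 := by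
    intro ν hν
    have h1 : ∀ᵐ z ∂ν, z ∈ S.K := by rw [ae_iff]; exact hν
    filter_upwards [h1] with z hz
    exact hK z hz
  have hd : ∀ (ν ν' : Measure ℂ) [IsProbabilityMeasure ν] [IsProbabilityMeasure ν']
      [NullSingletonClass ν'], ∀ᵐ p ∂(ν.prod ν'), p.1 ≠ p.2 := by
    intro ν ν' _ _ _
    have hm : MeasurableSet {p : ℂ × ℂ | p.1 = p.2} :=
      (isClosed_eq continuous_fst continuous_snd).measurableSet
    have h1 : (ν.prod ν') {p : ℂ × ℂ | p.1 = p.2} = 0 := by
      rw [Measure.measure_prod_null hm]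
      refine Eventually.of_forall fun x => ?_
      have : (Prod.mk x ⁻¹' {p : ℂ × ℂ | p.1 = p.2}) = {x} := by
        ext y; simp [eq_comm]
      simp [this]
    rw [ae_iff]
    simpa using h1
  have hpos := WJ.Pos.pos_strict rho (om S) (hae rho h) (hae (om S) (om_compl S)) (hd rho rho)
    (hd (om S) (om S)) (hd rho (om S)) hint (om_integrable S) (mixed_integrable S rho h)
  apply hpos.2
  unfold WJ.Pos.J
  rw [h0, om_energy S, mixed_zero S rho h]
  ring

end Pool.Agent.Lib_helper39.Widom
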